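import Pool.Agent.N229.PG.Stm

/-! Project PG (problem MP_345ce5_an): the case `α = 1`. -/

namespace PG

open Complex Filter Topology Metric Set

theorem o712_lt {z : ℂ} (hz : ‖z‖ = 1) (h1 : z ≠ 1) : ‖(1 + z) / 2‖ < 1 := by
  have e1 : z.re * z.re + z.im * z.im = 1 := by
    have := Complex.sq_norm z
    rw [hz, Complex.normSq_apply] at this
    linarith
  have hre : z.re < 1 := by
    by_contra h
    push Not at h
    have h2 : z.im * z.im ≤ 0 := by nlinarith
    have h3 : z.im = 0 := by nlinarith [mul_self_nonneg z.im]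
    have h4 : z.re = 1 := by nlinarith
    exact h1 (Complex.ext (by simpa using h4) (by simpa using h3))
  have e2 : ‖1 + z‖ ^ 2 < 2 ^ 2 := by
    rw [Complex.sq_norm, Complex.normSq_apply]
    simp only [Complex.add_re, Complex.one_re, Complex.add_im, Complex.one_im]
    nlinarith
  have e3 : ‖1 + z‖ < 2 := lt_of_pow_lt_pow_left₀ 2 (by norm_num) e2
  rw [norm_div]
  have e4 : ‖(2 : ℂ)‖ = 2 := by simp
  rw [e4]
  linarith

theorem o712_peak : PK.IsPeakSet 1 {1} := by
  refine ⟨isClosed_singleton, by simp, fun z => (1 + z) / 2, ⟨by fun_prop, by fun_prop, 1 / 2, ?_⟩,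
    ?_, ?_⟩
  · intro z _ w _
    rw [Real.rpow_one]
    have : (1 + z) / 2 - (1 + w) / 2 = (z - w) / 2 := by ring
    rw [this, norm_div]
    have e4 : ‖(2 : ℂ)‖ = 2 := by simp
    rw [e4]
    linarith
  · intro z hz
    rw [mem_singleton_iff] at hz
    rw [hz]
    norm_num
  · intro z hz h1
    exact o712_lt (by simpa using hz) (by simpa using h1)

theorem leaf_O : StmO := by
  intro hY
  refine ⟨o712_peak, fun h => ?_⟩
  have hs := hY 1 one_pos le_rfl {1} (by simp) h (fun m => (1 / 2 : ℝ) ^ m)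
    (fun m => (1 / 2 : ℝ) ^ m) ?_ ?_ ?_ ?_
  · have e : (fun m : ℕ => ((1 / 2 : ℝ) ^ m - (1 / 2 : ℝ) ^ (m + 1)) *
        ((1 / 2 : ℝ) ^ m) ^ (-(1 : ℝ))) = fun _ => (1 / 2 : ℝ) := by
      funext m
      have h0 : ((1 / 2 : ℝ) ^ m) ≠ 0 := by positivity
      rw [Real.rpow_neg_one, pow_succ]
      field_simp
      norm_num
    have hs' : Summable (fun _ : ℕ => (1 / 2 : ℝ)) := by
      rw [← e]
      exact hs
    have := tendsto_nhds_unique hs'.tendsto_atTop_zero tendsto_const_nhds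
    norm_num at this
  · intro m
    refine ⟨by positivity, ?_⟩
    have h1 : (1 / 2 : ℝ) ^ m ≤ 1 := pow_le_one₀ (by norm_num) (by norm_num)
    have h2 := Real.pi_gt_three
    show (1 / 2 : ℝ) ^ m ≤ _
    linarith
  · intro m
    show (1 / 2 : ℝ) ^ (m + 1) ≤ (1 / 2 : ℝ) ^ m
    rw [pow_succ]
    have : 0 < (1 / 2 : ℝ) ^ m := by positivity
    linarith
  · intro m
    show 0 < (1 / 2 : ℝ) ^ m
    positivity
  · intro m x hx1 hx2
    refine ⟨1, rfl, ?_⟩
    have h0 : 0 ≤ x := le_trans (by positivity) hx1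
    have := Real.norm_exp_I_mul_ofReal_sub_one_le (x := x)
    rw [mul_comm] at this
    refine this.trans ?_
    rw [Real.norm_eq_abs, abs_of_nonneg h0]
    exact hx2

end PG
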